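import Pool.Agent.H180Z.Box.Maps

set_option autoImplicit false

namespace Pool.Agent.H180Z.Box

open Set Filter Topology Real Metric

lemma mvt {f : ℝ → ℝ} {a b p q : ℝ}
    (h : ∀ x ∈ Icc p q, ∃ D, HasDerivAt f D x ∧ a ≤ D ∧ D ≤ b) {x y : ℝ}
    (hx : x ∈ Icc p q) (hy : y ∈ Icc p q) (hxy : x ≤ y) :
    a * (y - x) ≤ f y - f x ∧ f y - f x ≤ b * (y - x) := by
  rcases eq_or_lt_of_le hxy with h0 | h0
  · subst h0; simp
  have hsub : Icc x y ⊆ Icc p q := Icc_subset_Icc hx.1 hy.2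
  have hd : ∀ z ∈ Icc x y, HasDerivAt f (deriv f z) z := fun z hz => by
    obtain ⟨D, hD, -⟩ := h z (hsub hz)
    exact hD.differentiableAt.hasDerivAt
  obtain ⟨c, hc, hc2⟩ := exists_hasDerivAt_eq_slope f (deriv f) h0
    (fun z hz => (hd z hz).continuousAt.continuousWithinAt)
    (fun z hz => hd z (Ioo_subset_Icc_self hz))
  obtain ⟨D, hD, h1, h2⟩ := h c (hsub (Ioo_subset_Icc_self hc))
  rw [hD.deriv, eq_div_iff (by linarith)] at hc2
  have : 0 < y - x := by linarith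
  constructor <;> nlinarith

lemma mvt_abs {f : ℝ → ℝ} {b p q : ℝ}
    (h : ∀ x ∈ Icc p q, ∃ D, HasDerivAt f D x ∧ 0 ≤ D ∧ D ≤ b) {x y : ℝ}
    (hx : x ∈ Icc p q) (hy : y ∈ Icc p q) : |f x - f y| ≤ b * |x - y| := by
  rcases le_total x y with hxy | hxy
  · obtain ⟨h1, h2⟩ := mvt h hx hy hxy
    rw [abs_sub_comm, abs_sub_comm x y, abs_of_nonneg (by linarith), abs_of_nonneg (by linarith)]
    exact h2
  · obtain ⟨h1, h2⟩ := mvt h hy hx hxy
    rw [abs_of_nonneg (by linarith), abs_of_nonneg (by linarith)]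
    exact h2

structure Good (w : ℝ) : Prop where
  pos : 0 < w
  le : w ≤ 1 / 64
  der : ∀ j : ℝ, 0 ≤ j → j ≤ 1 → ∀ x, ∃ D : ℝ, HasDerivAt (ff w j) D x ∧ eta / 4 ≤ D ∧ D ≤ 1 / 2

lemma exists_good : ∃ w, Good w := by
  obtain ⟨C, hC0, hC⟩ := be_deriv_bdd
  have he := eta_pos
  have he2 := eta_le
  have hw : 0 < eta / (8 * (C + 1)) := by positivity
  refine ⟨eta / (8 * (C + 1)), hw, ?_, fun j h0 h1 x => ff_deriv hw h0 h1 hC0 hC ?_ x⟩
  · rw [div_le_iff₀ (by positivity)]; nlinarith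
  · have : 2 * (eta / (8 * (C + 1))) * C = eta / 4 * (C / (C + 1)) := by field_simp; ring
    rw [this]
    have h2 : C / (C + 1) ≤ 1 := by rw [div_le_one (by positivity)]; linarith
    nlinarith

noncomputable def FF (w : ℝ) : Fin 3 → ℝ → ℝ := ![ff w 0, ff w 1, fun x => 1 + w * eta * x]

lemma FF_deriv {w : ℝ} (hw : Good w) (i : Fin 3) (x : ℝ) :
    ∃ D : ℝ, HasDerivAt (FF w i) D x ∧ w * eta ≤ D ∧ D ≤ 1 / 2 := by
  have he := eta_pos
  have he2 := eta_le
  have h1 := hw.pos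
  have h2 := hw.le
  have h3 : w * eta ≤ eta / 4 := by nlinarith
  fin_cases i
  · obtain ⟨D, hD, h4, h5⟩ := hw.der 0 le_rfl zero_le_one x
    exact ⟨D, hD, by linarith, h5⟩
  · obtain ⟨D, hD, h4, h5⟩ := hw.der 1 zero_le_one le_rfl x
    exact ⟨D, hD, by linarith, h5⟩
  · refine ⟨w * eta, ?_, le_rfl, by linarith⟩
    have := ((hasDerivAt_id x).const_mul (w * eta)).const_add 1
    rw [mul_one] at this
    exact this

lemma FF_lip {w : ℝ} (hw : Good w) (i : Fin 3) (x y : ℝ) :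
    |FF w i x - FF w i y| ≤ 1 / 2 * |x - y| := by
  have h0 : 0 < w * eta := mul_pos hw.pos eta_pos
  apply mvt_abs (p := min x y) (q := max x y)
  · intro z _
    obtain ⟨D, hD, h1, h2⟩ := FF_deriv hw i z
    exact ⟨D, hD, by linarith, h2⟩
  · exact ⟨min_le_left _ _, le_max_left _ _⟩
  · exact ⟨min_le_right _ _, le_max_right _ _⟩

lemma FF_cont {w : ℝ} (hw : Good w) (i : Fin 3) : Continuous (FF w i) :=
  continuous_iff_continuousAt.2 fun x => by
    obtain ⟨D, hD, -⟩ := FF_deriv hw i x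
    exact hD.continuousAt

lemma ff_half {w j : ℝ} (hw : Good w) (h0 : 0 ≤ j) (h1 : j ≤ 1) {x : ℝ} (hx : 0 ≤ x) :
    0 ≤ ff w j x ∧ ff w j x ≤ x / 2 := by
  have he := eta_pos
  have := mvt (f := ff w j) (a := eta / 4) (b := 1 / 2) (p := 0) (q := x)
    (fun z _ => hw.der j h0 h1 z) ⟨le_rfl, hx⟩ ⟨hx, le_rfl⟩ hx
  rw [ff_zero] at this
  constructor <;> nlinarith [this.1, this.2]

def KK (w : ℝ) : Set ℝ := ⋂₀ {A | IsClosed A ∧ (0 : ℝ) ∈ A ∧ ∀ i, MapsTo (FF w i) A A}

lemma KK_closed (w : ℝ) : IsClosed (KK w) := isClosed_sInter fun _ hA => hA.1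
lemma KK_zero (w : ℝ) : (0 : ℝ) ∈ KK w := fun _ hA => hA.2.1
lemma KK_maps (w : ℝ) (i : Fin 3) : MapsTo (FF w i) (KK w) (KK w) :=
  fun _ hx A hA => hA.2.2 i (hx A hA)

lemma KK_sub {w : ℝ} (hw : Good w) : KK w ⊆ Icc 0 2 := by
  apply sInter_subset_of_mem
  refine ⟨isClosed_Icc, ⟨le_rfl, by norm_num⟩, fun i x hx => ?_⟩
  have he := eta_pos
  have he2 := eta_le
  have h1 := hw.pos
  have h2 := hw.le
  fin_cases i
  · have := ff_half hw le_rfl zero_le_one hx.1
    exact ⟨this.1, by have h3 := hx.2; change ff w 0 x ≤ 2; linarith [this.2]⟩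
  · have := ff_half hw zero_le_one le_rfl hx.1
    exact ⟨this.1, by have h3 := hx.2; change ff w 1 x ≤ 2; linarith [this.2]⟩
  · have h3 : 0 ≤ w * eta := by positivity
    have h4 : w * eta ≤ 1 / 64 := by nlinarith
    have h5 := hx.1
    have h6 := hx.2
    change 0 ≤ 1 + w * eta * x ∧ 1 + w * eta * x ≤ 2
    constructor <;> nlinarith

lemma KK_compact {w : ℝ} (hw : Good w) : IsCompact (KK w) :=
  isCompact_Icc.of_isClosed_subset (KK_closed w) (KK_sub hw)

lemma KK_eq {w : ℝ} (hw : Good w) : KK w = ⋃ i, FF w i '' KK w := by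
  have h1 : (⋃ i, FF w i '' KK w) ⊆ KK w := iUnion_subset fun i => (KK_maps w i).image_subset
  refine Subset.antisymm ?_ h1
  apply sInter_subset_of_mem
  refine ⟨?_, ?_, fun i x hx => ?_⟩
  · exact isClosed_iUnion_of_finite fun i => ((KK_compact hw).image (FF_cont hw i)).isClosed
  · exact mem_iUnion.2 ⟨0, 0, KK_zero w, ff_zero w 0⟩
  · exact mem_iUnion.2 ⟨i, x, h1 hx, rfl⟩

noncomputable def PP (w : ℝ) (n k : ℕ) : ℝ := (1/4) ^ n + k * (2 * π * gg w n)

noncomputable def rho (w : ℝ) (n : ℕ) : ℝ := w * eta ^ (n + 1)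

lemma rho_pos {w : ℝ} (hw : Good w) (n : ℕ) : 0 < rho w n := by
  have := hw.pos; have := eta_pos; unfold rho; positivity

lemma rho_le {w : ℝ} (hw : Good w) (n : ℕ) : rho w n ≤ eta * gg w n := by
  have h1 := hw.pos
  have he := eta_pos
  have he2 := eta_le
  have h2 : eta ^ n ≤ (1/4) ^ n / 2 ^ mm n := by
    rw [le_div_iff₀ (by positivity)]
    have h3 : (2 : ℝ) ^ mm n ≤ 2 ^ n := pow_le_pow_right₀ (by norm_num) (mm_le n)
    calc eta ^ n * 2 ^ mm n ≤ eta ^ n * 2 ^ n := by gcongr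
      _ = (eta * 2) ^ n := by rw [mul_pow]
      _ ≤ (1/4) ^ n := pow_le_pow_left₀ (by positivity) (by linarith) n
  unfold rho gg
  calc w * eta ^ (n + 1) = eta * w * eta ^ n := by ring
    _ ≤ eta * w * ((1/4) ^ n / 2 ^ mm n) := by gcongr
    _ = _ := by ring

lemma gg_le {w : ℝ} (hw : Good w) (n : ℕ) : gg w n ≤ (1/4) ^ n / 64 := by
  have h1 := hw.pos
  have h2 := hw.le
  have h7 : gg w n ≤ w * (1/4) ^ n := by
    unfold gg
    apply div_le_self (by positivity) (one_le_pow₀ (by norm_num))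
  have hq : (0 : ℝ) < (1/4) ^ n := by positivity
  nlinarith

lemma PP_bounds {w : ℝ} (hw : Good w) {n k : ℕ} (hk : k < 2 ^ mm n) :
    (1/4) ^ n ≤ PP w n k ∧ PP w n k ≤ 9 / 8 * (1/4) ^ n := by
  have h1 := hw.pos
  have h2 := hw.le
  have hg := gg_pos h1 n
  have hpi := Real.pi_lt_d2
  have hpi0 := Real.pi_pos
  have hq : (0 : ℝ) < (1/4) ^ n := by positivity
  have h3 : (k : ℝ) ≤ 2 ^ mm n := by exact_mod_cast hk.le
  have h4 : (k : ℝ) * gg w n ≤ w * (1/4) ^ n := by
    calc (k : ℝ) * gg w n ≤ 2 ^ mm n * gg w n := by gcongr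
      _ = w * (1/4) ^ n := by unfold gg; field_simp
  have h5 : (0 : ℝ) ≤ k * gg w n := by positivity
  have h6 : w * (1/4) ^ n ≤ (1/4) ^ n / 64 := by nlinarith
  unfold PP
  constructor
  · have : (0 : ℝ) ≤ k * (2 * π * gg w n) := by positivity
    linarith
  · nlinarith

lemma near_block {w : ℝ} (hw : Good w) {n k : ℕ} (hk : k < 2 ^ mm n) {x : ℝ}
    (hx : x ∈ Icc (PP w n k - 2 * rho w n) (PP w n k + 2 * rho w n)) :
    3 / 4 * (1/4) ^ n ≤ x ∧ x ≤ 5 / 4 * (1/4) ^ n := by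
  obtain ⟨h1, h2⟩ := PP_bounds hw hk
  have h3 := rho_le hw n
  have h4 := gg_le hw n
  have h5 := gg_pos hw.pos n
  have he := eta_pos
  have he2 := eta_le
  have h6 : rho w n ≤ gg w n := by nlinarith
  have hq : (0 : ℝ) < (1/4) ^ n := by positivity
  constructor <;> linarith [hx.1, hx.2]

lemma ff_PP {w : ℝ} (hw : Good w) {n k : ℕ} (hk : k < 2 ^ mm n) (j : ℕ) :
    ff w j (PP w n k) = PP w (n + 1) (k * 2 ^ dd n + j * dd n) := by
  have hr := rho_pos hw n
  have hg := gg_pos hw.pos n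
  obtain ⟨h1, h2⟩ := near_block hw hk (x := PP w n k) ⟨by linarith, by linarith⟩
  rw [ff_block w j n h1 h2]
  unfold vv
  have e : (PP w n k - (1/4) ^ n) / gg w n = k * (2 * π) := by
    unfold PP; field_simp; ring
  have e2 : sin (k * (2 * π)) = 0 := by
    have := Real.sin_add_nat_mul_two_pi 0 k
    simpa using this
  rw [e, e2]
  have e3 := gg_succ w n
  unfold PP
  push_cast
  have e4 : gg w n = 4 * (gg w (n + 1) * 2 ^ dd n) := by rw [e3]; ring
  rw [e4]; ring

lemma idx_lt {n k j : ℕ} (hk : k < 2 ^ mm n) (hj : j ≤ 1) :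
    k * 2 ^ dd n + j * dd n < 2 ^ mm (n + 1) := by
  simp only [mm, pow_add]
  rcases Nat.le_one_iff_eq_zero_or_eq_one.1 (dd_le n) with h | h <;> rw [h]
  · simpa using hk
  · simp only [pow_one, mul_one]; omega

lemma PP_mem {w : ℝ} (hw : Good w) (n : ℕ) : ∀ k < 2 ^ mm n, PP w n k ∈ KK w := by
  induction n with
  | zero =>
    intro k hk
    have : k = 0 := by simpa [mm] using hk
    subst this
    have := KK_maps w 2 (KK_zero w)
    simpa [PP, FF] using this
  | succ n ih =>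
    intro k hk
    simp only [mm, pow_add] at hk
    rcases Nat.le_one_iff_eq_zero_or_eq_one.1 (dd_le n) with h | h
    · rw [h] at hk
      have hk' : k < 2 ^ mm n := by simpa using hk
      have h1 := ff_PP hw hk' 0
      rw [h] at h1
      have h2 := KK_maps w 0 (ih k hk')
      simp only [pow_zero, mul_one, mul_zero, add_zero, Nat.cast_zero] at h1
      rw [← h1]; exact h2
    · rw [h] at hk
      have hk' : k / 2 < 2 ^ mm n := by omega
      have h1 := ff_PP hw hk' (k % 2)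
      rw [h, show k / 2 * 2 ^ 1 + k % 2 * 1 = k by omega] at h1
      rw [← h1]
      rcases Nat.mod_two_eq_zero_or_one k with h3 | h3 <;> rw [h3]
      · have h2 := KK_maps w 0 (ih _ hk')
        rw [Nat.cast_zero]; exact h2
      · have h2 := KK_maps w 1 (ih _ hk')
        rw [Nat.cast_one]; exact h2

lemma loc_lip {w : ℝ} (hw : Good w) {n k : ℕ} (hk : k < 2 ^ mm n) (j : ℝ) {x y : ℝ}
    (hx : |x - PP w n k| ≤ 2 * rho w n) (hy : |y - PP w n k| ≤ 2 * rho w n) :
    |ff w j x - ff w j y| ≤ eta * |x - y| := by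
  have hx' : x ∈ Icc (PP w n k - 2 * rho w n) (PP w n k + 2 * rho w n) := by
    rw [abs_le] at hx; constructor <;> linarith [hx.1, hx.2]
  have hy' : y ∈ Icc (PP w n k - 2 * rho w n) (PP w n k + 2 * rho w n) := by
    rw [abs_le] at hy; constructor <;> linarith [hy.1, hy.2]
  rw [ff_block w j n (near_block hw hk hx').1 (near_block hw hk hx').2,
    ff_block w j n (near_block hw hk hy').1 (near_block hw hk hy').2]
  refine mvt_abs (f := fun x => x / 4 + vv w j n x) (fun z hz => ?_) hx' hy'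
  have hg := gg_pos hw.pos n
  have he := eta_pos
  have he2 := eta_le
  refine ⟨_, ((hasDerivAt_id z).div_const 4).add (vv_hasDeriv hw.pos j n z), ?_⟩
  have e : (z - (1/4) ^ n) / gg w n = (z - PP w n k) / gg w n + k * (2 * π) := by
    unfold PP; field_simp; ring
  rw [e, Real.cos_add_nat_mul_two_pi]
  set t := (z - PP w n k) / gg w n with ht
  have h1 : |t| ≤ 2 * eta := by
    rw [ht, abs_div, abs_of_pos hg, div_le_iff₀ hg, abs_le]
    have := rho_le hw n
    constructor <;> linarith [hz.1, hz.2]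
  have h2 : t ^ 2 ≤ 4 * eta := by
    have h3 : t ^ 2 = |t| ^ 2 := (sq_abs t).symm
    have h4 := abs_nonneg t
    nlinarith
  have h3 := Real.one_sub_sq_div_two_le_cos (x := t)
  have h4 := Real.cos_le_one t
  constructor <;> nlinarith

def TT (w : ℝ) : ℕ → Set ℝ
  | 0 => FF w 2 '' KK w
  | n + 1 => ff w 0 '' TT w n ∪ ff w 1 '' TT w n

lemma KK_cover {w : ℝ} (hw : Good w) (M : ℕ) :
    ∀ x ∈ KK w, (0 ≤ x ∧ x ≤ 2 * (1/2) ^ M) ∨ ∃ n, x ∈ TT w n := by
  induction M with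
  | zero => intro x hx; left; simpa using KK_sub hw hx
  | succ M ih =>
    intro x hx
    rw [KK_eq hw] at hx
    obtain ⟨i, y, hy, rfl⟩ := mem_iUnion.1 hx
    fin_cases i
    · rcases ih y hy with h | ⟨n, h⟩
      · left
        have := ff_half hw le_rfl zero_le_one h.1
        refine ⟨this.1, ?_⟩
        change ff w 0 y ≤ _
        rw [pow_succ]; linarith [this.2, h.2]
      · right; exact ⟨n + 1, Or.inl ⟨y, h, rfl⟩⟩
    · rcases ih y hy with h | ⟨n, h⟩
      · left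
        have := ff_half hw zero_le_one le_rfl h.1
        refine ⟨this.1, ?_⟩
        change ff w 1 y ≤ _
        rw [pow_succ]; linarith [this.2, h.2]
      · right; exact ⟨n + 1, Or.inr ⟨y, h, rfl⟩⟩
    · right; exact ⟨0, y, hy, rfl⟩

lemma pieces {w : ℝ} (hw : Good w) (n : ℕ) : ∃ G : Finset (ℝ → ℝ), G.card ≤ 2 ^ n ∧
    (∀ g ∈ G, (∃ k < 2 ^ mm n, ∀ x, |g x - PP w n k| ≤ 2 * rho w n) ∧
      ∀ x y, |g x - g y| ≤ rho w n * |x - y|) ∧ ∀ z ∈ TT w n, ∃ g ∈ G, ∃ x ∈ KK w, g x = z := by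
  classical
  induction n with
  | zero =>
    have hr := rho_pos hw 0
    have e : rho w 0 = w * eta := by simp [rho]
    refine ⟨{fun x => 1 + rho w 0 * max 0 (min x 2)}, by simp, ?_, ?_⟩
    · intro g hg
      rw [Finset.mem_singleton] at hg
      subst hg
      refine ⟨⟨0, by simp [mm], fun x => ?_⟩, fun x y => ?_⟩
      · simp only [PP, pow_zero, Nat.cast_zero, zero_mul, add_zero, add_sub_cancel_left]
        have h1 : 0 ≤ max 0 (min x 2) := le_max_left _ _
        have h2 : max 0 (min x 2) ≤ 2 := max_le (by norm_num) (min_le_right _ _)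
        rw [abs_of_nonneg (by positivity)]; nlinarith
      · rw [add_sub_add_left_eq_sub, ← mul_sub, abs_mul, abs_of_pos hr]
        refine mul_le_mul_of_nonneg_left ?_ hr.le
        have a1 := abs_max_sub_max_le_max (0:ℝ) (min x 2) 0 (min y 2)
        have a2 := abs_min_sub_min_le_max x 2 y 2
        rw [sub_self, abs_zero, max_eq_right (abs_nonneg (min x 2 - min y 2))] at a1
        rw [sub_self, abs_zero, max_eq_left (abs_nonneg (x - y))] at a2
        exact a1.trans a2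
    · rintro z ⟨x, hx, rfl⟩
      refine ⟨_, Finset.mem_singleton_self _, x, hx, ?_⟩
      have := KK_sub hw hx
      simp only [min_eq_left this.2, max_eq_right this.1, e]
      rfl
  | succ n ih =>
    obtain ⟨G, h1, h2, h3⟩ := ih
    have hr := rho_pos hw n
    have er : rho w (n + 1) = eta * rho w n := by unfold rho; ring
    have he := eta_pos
    have key : ∀ j : ℕ, j ≤ 1 → ∀ g ∈ G,
        (∃ k < 2 ^ mm (n + 1), ∀ x, |(ff w j ∘ g) x - PP w (n + 1) k| ≤ 2 * rho w (n + 1)) ∧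
        ∀ x y, |(ff w j ∘ g) x - (ff w j ∘ g) y| ≤ rho w (n + 1) * |x - y| := by
      intro j hj g hg
      obtain ⟨⟨k, hk, h4⟩, h5⟩ := h2 g hg
      refine ⟨⟨_, idx_lt hk hj, fun x => ?_⟩, fun x y => ?_⟩
      · rw [← ff_PP hw hk j, er]
        have h6 := loc_lip hw hk j (h4 x) (y := PP w n k) (by simp; linarith)
        have h7 := h4 x
        simp only [Function.comp]
        nlinarith
      · have h6 := loc_lip hw hk j (h4 x) (h4 y)
        have h7 := h5 x y
        simp only [Function.comp]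
        rw [er]
        nlinarith
    refine ⟨G.image (fun g => ff w 0 ∘ g) ∪ G.image (fun g => ff w 1 ∘ g), ?_, ?_, ?_⟩
    · refine (Finset.card_union_le _ _).trans ?_
      have h4 := Finset.card_image_le (s := G) (f := fun g => ff w 0 ∘ g)
      have h5 := Finset.card_image_le (s := G) (f := fun g => ff w 1 ∘ g)
      rw [pow_succ]; omega
    · intro g hg
      rcases Finset.mem_union.1 hg with hg | hg <;> obtain ⟨g', hg', rfl⟩ := Finset.mem_image.1 hg
      · have := key 0 (by norm_num) g' hg'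
        rwa [Nat.cast_zero] at this
      · have := key 1 le_rfl g' hg'
        rwa [Nat.cast_one] at this
    · rintro z (⟨y, hy, rfl⟩ | ⟨y, hy, rfl⟩) <;> obtain ⟨g, hg, x, hx, rfl⟩ := h3 y hy
      · exact ⟨_, Finset.mem_union_left _ (Finset.mem_image_of_mem _ hg), x, hx, rfl⟩
      · exact ⟨_, Finset.mem_union_right _ (Finset.mem_image_of_mem _ hg), x, hx, rfl⟩

lemma TT_near {w : ℝ} (hw : Good w) (n : ℕ) {z : ℝ} (hz : z ∈ TT w n) :
    ∃ k < 2 ^ mm n, |z - PP w n k| ≤ 2 * rho w n := by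
  obtain ⟨G, -, h2, h3⟩ := pieces hw n
  obtain ⟨g, hg, x, -, rfl⟩ := h3 z hz
  obtain ⟨⟨k, hk, h4⟩, -⟩ := h2 g hg
  exact ⟨k, hk, h4 x⟩

lemma KK_cover' {w : ℝ} (hw : Good w) (n : ℕ) {x : ℝ} (hx : x ∈ KK w) :
    (0 ≤ x ∧ x ≤ 2 * (1/4) ^ n) ∨ ∃ k < n, x ∈ TT w k := by
  have h0 := (KK_sub hw hx).1
  by_cases h : ∃ k, x ∈ TT w k
  · obtain ⟨k, hk⟩ := h
    rcases lt_or_ge k n with h1 | h1
    · exact Or.inr ⟨k, h1, hk⟩
    · left
      obtain ⟨l, hl, h2⟩ := TT_near hw k hk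
      have h3 := (near_block hw hl (x := x)
        (by rw [abs_le] at h2; constructor <;> linarith [h2.1, h2.2])).2
      have h4 : ((1:ℝ)/4) ^ k ≤ (1/4) ^ n := pow_le_pow_of_le_one (by norm_num) (by norm_num) h1
      have hq : (0 : ℝ) < (1/4) ^ n := by positivity
      exact ⟨h0, by linarith⟩
  · left
    refine ⟨h0, ?_⟩
    rcases KK_cover hw (2 * n) x hx with h1 | h1
    · rw [pow_mul] at h1
      norm_num at h1 ⊢
      exact h1.2
    · exact absurd h1 h

end Pool.Agent.H180Z.Box
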