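import Pool.Agent.H180Z.Box.Attr

set_option autoImplicit false

namespace Pool.Agent.H180Z.Box

open Set Filter Topology Real Metric

def Cov (A : Set ℝ) (r N : ℝ) : Prop :=
  ∃ s : Finset ℝ, (s.card : ℝ) ≤ N ∧ ∀ z ∈ A, ∃ x ∈ s, |z - x| ≤ r

lemma Cov.mono {A : Set ℝ} {r N N' : ℝ} (h : Cov A r N) (hN : N ≤ N') : Cov A r N' := by
  obtain ⟨s, h1, h2⟩ := h
  exact ⟨s, h1.trans hN, h2⟩

lemma cov_a {w : ℝ} (hw : Good w) (k : ℕ) {r : ℝ} (hr : 2 * rho w k ≤ r) :
    Cov (TT w k) r (2 ^ mm k) := by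
  classical
  refine ⟨(Finset.range (2 ^ mm k)).image (PP w k), ?_, fun z hz => ?_⟩
  · have := Finset.card_image_le (s := Finset.range (2 ^ mm k)) (f := PP w k)
    rw [Finset.card_range] at this
    exact_mod_cast this
  · obtain ⟨l, hl, h⟩ := TT_near hw k hz
    exact ⟨_, Finset.mem_image_of_mem _ (Finset.mem_range.2 hl), h.trans hr⟩

lemma cov_b {w : ℝ} (hw : Good w) (k : ℕ) {r N : ℝ} (h : Cov (KK w) r N) :
    Cov (TT w k) (rho w k * r) (2 ^ k * N) := by
  classical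
  obtain ⟨s, h1, h2⟩ := h
  obtain ⟨G, h3, h4, h5⟩ := pieces hw k
  refine ⟨(G ×ˢ s).image (fun p => p.1 p.2), ?_, fun z hz => ?_⟩
  · have h6 := Finset.card_image_le (s := G ×ˢ s) (f := fun p => p.1 p.2)
    rw [Finset.card_product] at h6
    have h7 : (((G ×ˢ s).image (fun p => p.1 p.2)).card : ℝ) ≤ G.card * s.card := by
      exact_mod_cast h6
    have h8 : (G.card : ℝ) ≤ 2 ^ k := by exact_mod_cast h3
    refine h7.trans (mul_le_mul h8 h1 (by positivity) (by positivity))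
  · obtain ⟨g, hg, x, hx, rfl⟩ := h5 z hz
    obtain ⟨y, hy, h6⟩ := h2 x hx
    refine ⟨g y, Finset.mem_image.2 ⟨(g, y), Finset.mem_product.2 ⟨hg, hy⟩, rfl⟩, ?_⟩
    exact ((h4 g hg).2 x y).trans (mul_le_mul_of_nonneg_left h6 (rho_pos hw k).le)

lemma cov_sum {w : ℝ} (hw : Good w) (n : ℕ) {r : ℝ} (hr : (1/4) ^ n ≤ r) (c : ℕ → ℝ)
    (h : ∀ k < n, Cov (TT w k) r (c k)) : Cov (KK w) r (1 + ∑ k ∈ Finset.range n, c k) := by
  classical
  have h' : ∀ k, ∃ s : Finset ℝ, k < n → (s.card : ℝ) ≤ c k ∧ ∀ z ∈ TT w k, ∃ x ∈ s, |z - x| ≤ r := by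
    intro k
    by_cases hk : k < n
    · obtain ⟨s, h1⟩ := h k hk
      exact ⟨s, fun _ => h1⟩
    · exact ⟨∅, fun h1 => absurd h1 hk⟩
  choose s hs using h'
  refine ⟨insert ((1/4) ^ n) ((Finset.range n).biUnion s), ?_, fun z hz => ?_⟩
  · have h1 := Finset.card_insert_le ((1/4 : ℝ) ^ n) ((Finset.range n).biUnion s)
    have h2 := Finset.card_biUnion_le (s := Finset.range n) (t := s)
    have h3 : ((insert ((1/4 : ℝ) ^ n) ((Finset.range n).biUnion s)).card : ℝ) ≤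
        1 + ∑ k ∈ Finset.range n, ((s k).card : ℝ) := by
      have : (insert ((1/4 : ℝ) ^ n) ((Finset.range n).biUnion s)).card ≤
        1 + ∑ k ∈ Finset.range n, (s k).card := by omega
      exact_mod_cast this
    refine h3.trans ?_
    gcongr with k hk
    exact (hs k (Finset.mem_range.1 hk)).1
  · rcases KK_cover' hw n hz with h1 | ⟨k, hk, h1⟩
    · refine ⟨_, Finset.mem_insert_self _ _, ?_⟩
      rw [abs_le]; constructor <;> linarith [h1.1, h1.2]
    · obtain ⟨x, hx, h2⟩ := (hs k hk).2 z h1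
      exact ⟨x, Finset.mem_insert_of_mem (Finset.mem_biUnion.2 ⟨k, Finset.mem_range.2 hk, hx⟩), h2⟩

lemma cov_main {w : ℝ} (hw : Good w) (n i : ℕ) : ∀ r : ℝ, (1/4) ^ n ≤ r → eta ^ i ≤ r →
    Cov (KK w) r ((1 + n * 2 ^ mm n) * 4 ^ i) := by
  have he := eta_pos
  have he2 := eta_le
  have hw1 := hw.pos
  have hw2 := hw.le
  set E : ℝ := 1 + n * 2 ^ mm n with hE
  have hE1 : 1 ≤ E := by
    have : (0 : ℝ) ≤ n * 2 ^ mm n := by positivity
    linarith
  induction i using Nat.strong_induction_on with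
  | _ i ih =>
  intro r hr1 hr2
  rcases Nat.eq_zero_or_pos i with hi | hi
  · subst hi
    refine ⟨{1}, by simpa using hE1, fun z hz => ⟨1, by simp, ?_⟩⟩
    have := KK_sub hw hz
    rw [pow_zero] at hr2
    rw [abs_le]; constructor <;> linarith [this.1, this.2]
  obtain ⟨i, rfl⟩ : ∃ j, i = j + 1 := ⟨i - 1, by omega⟩
  have hr0 : 0 < r := lt_of_lt_of_le (by positivity) hr1
  have key := cov_sum hw n hr1 (fun k => 2 ^ mm n + E * 4 ^ i * (1/2) ^ k) (fun k hk => by
    have hm : (2 : ℝ) ^ mm k ≤ 2 ^ mm n := pow_le_pow_right₀ (by norm_num) (mm_mono hk.le)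
    rcases le_or_gt k i with h | h
    · have hrho := rho_pos hw k
      have hrho1 : rho w k ≤ eta ^ (k + 1) := by
        unfold rho
        have : 0 < eta ^ (k + 1) := by positivity
        nlinarith
      have hrho2 : rho w k ≤ 1 := hrho1.trans (pow_le_one₀ he.le (by linarith))
      have h1 := ih (i - k) (by omega) (r / rho w k)
        (hr1.trans (le_div_self hr0.le hrho hrho2)) (by
          rw [le_div_iff₀ hrho]
          calc eta ^ (i - k) * rho w k ≤ eta ^ (i - k) * eta ^ (k + 1) := by gcongr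
            _ = eta ^ (i + 1) := by rw [← pow_add]; congr 1; omega
            _ ≤ r := hr2)
      have h2 := cov_b hw k h1
      rw [mul_div_cancel₀ _ hrho.ne'] at h2
      refine h2.mono ?_
      have e : (2 : ℝ) ^ k * (E * 4 ^ (i - k)) = E * 4 ^ i * (1/2) ^ k := by
        obtain ⟨l, rfl⟩ := Nat.exists_eq_add_of_le h
        rw [Nat.add_sub_cancel_left, pow_add, show (4 : ℝ) ^ k = 2 ^ k * 2 ^ k by
          rw [← mul_pow]; norm_num, one_div, inv_pow]
        field_simp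
      rw [e]
      have : (0 : ℝ) < 2 ^ mm n := by positivity
      linarith
    · refine (cov_a hw k ?_).mono ?_
      · have h1 : eta ^ (k + 1) ≤ eta ^ (i + 1) :=
          pow_le_pow_of_le_one he.le (by linarith) (by omega)
        unfold rho
        have : 0 < eta ^ (k + 1) := by positivity
        nlinarith
      · have : 0 ≤ E * 4 ^ i * (1/2) ^ k := by positivity
        linarith)
  refine key.mono ?_
  rw [Finset.sum_add_distrib, Finset.sum_const, Finset.card_range, nsmul_eq_mul, ← Finset.mul_sum]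
  have h1 := sum_geometric_two_le n
  have h2 : (1 : ℝ) ≤ 4 ^ i := one_le_pow₀ (by norm_num)
  have h3 : E * 4 ^ i * ∑ k ∈ Finset.range n, (1/2 : ℝ) ^ k ≤ E * 4 ^ i * 2 := by gcongr
  have h4 : E ≤ E * 4 ^ i := by nlinarith
  rw [pow_succ]
  nlinarith

lemma cov_bad {w : ℝ} (hw : Good w) (i : ℕ) :
    Cov (KK w) ((1/4) ^ (16 * 16 ^ (2 * i + 2))) (2 ^ (5 * 16 ^ (2 * i + 2))) := by
  set a := 16 ^ (2 * i + 2) with ha
  have h1 := cov_main hw (16 * a) a _ le_rfl (by unfold eta; rw [← pow_mul])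
  refine h1.mono ?_
  have h2 : mm (16 * a) ≤ a := by
    have := mm_bad (i + 1)
    rw [show 2 * (i + 1) + 1 = (2 * i + 2) + 1 by ring, pow_succ, mul_comm,
      show 2 * (i + 1) = 2 * i + 2 by ring] at this
    exact this
  have h3 : 3 ≤ a := by
    have : 2 * i + 2 < 16 ^ (2 * i + 2) := Nat.lt_pow_self (by norm_num)
    omega
  have h4 : ∀ b : ℕ, 3 ≤ b → 16 * b + 1 ≤ 4 ^ b := by
    intro b hb
    induction b, hb using Nat.le_induction with
    | base => norm_num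
    | succ b hb ih => rw [pow_succ]; omega
  have h5 : (1 + 16 * a * 2 ^ mm (16 * a)) * 4 ^ a ≤ 2 ^ (5 * a) := by
    have h6 : 2 ^ mm (16 * a) ≤ 2 ^ a := Nat.pow_le_pow_right (by norm_num) h2
    have h7 : 1 ≤ 2 ^ a := Nat.one_le_two_pow
    have h8 : 1 + 16 * a * 2 ^ mm (16 * a) ≤ (16 * a + 1) * 2 ^ a := by nlinarith
    have h9 : (16 * a + 1) * 2 ^ a ≤ 4 ^ a * 2 ^ a := Nat.mul_le_mul_right _ (h4 a h3)
    calc _ ≤ 4 ^ a * 2 ^ a * 4 ^ a := Nat.mul_le_mul_right _ (h8.trans h9)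
      _ = 2 ^ (5 * a) := by
        rw [← mul_pow, ← mul_pow, pow_mul]; norm_num
  exact_mod_cast h5

lemma cov_good {w : ℝ} (hw : Good w) (n : ℕ) (s : Finset ℝ)
    (h : ∀ z ∈ KK w, ∃ x ∈ s, |z - x| ≤ gg w n) : 2 ^ mm n ≤ s.card := by
  have h' : ∀ k, ∃ x, k < 2 ^ mm n → x ∈ s ∧ |PP w n k - x| ≤ gg w n := by
    intro k
    by_cases hk : k < 2 ^ mm n
    · obtain ⟨x, h1, h2⟩ := h _ (PP_mem hw n k hk)
      exact ⟨x, fun _ => ⟨h1, h2⟩⟩
    · exact ⟨0, fun h1 => absurd h1 hk⟩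
  choose x hx using h'
  have hg := gg_pos hw.pos n
  have hpi := Real.pi_gt_three
  have key : ∀ k l, k < l → l < 2 ^ mm n → x k ≠ x l := by
    intro k l hkl hl he
    have h1 := (hx k (by omega)).2
    have h2 := (hx l hl).2
    rw [he] at h1
    rw [abs_le] at h1 h2
    have h3 : (k : ℝ) + 1 ≤ l := by exact_mod_cast hkl
    have h4 : PP w n l - PP w n k = (l - k) * (2 * π * gg w n) := by unfold PP; ring
    have h5 : 6 * gg w n ≤ 2 * π * gg w n := by nlinarith
    nlinarith [h1.1, h1.2, h2.1, h2.2]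
  have := Finset.card_le_card_of_injOn (s := Finset.range (2 ^ mm n)) (t := s) x
    (fun k hk => (hx k (Finset.mem_range.1 hk)).1) (fun k hk l hl he => by
      have hk' := Finset.mem_range.1 hk
      have hl' := Finset.mem_range.1 hl
      rcases lt_trichotomy k l with h1 | h1 | h1
      · exact absurd he (key k l h1 hl')
      · exact h1
      · exact absurd he.symm (key l k h1 hk'))
  rwa [Finset.card_range] at this

lemma cov_exists {w : ℝ} (hw : Good w) {r : ℝ} (hr : 0 < r) : ∃ N, Cov (KK w) r N := by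
  obtain ⟨n, hn⟩ := exists_pow_lt_of_lt_one hr (by norm_num : (1/4 : ℝ) < 1)
  obtain ⟨i, hi⟩ := exists_pow_lt_of_lt_one hr (by linarith [eta_le] : eta < 1)
  exact ⟨_, cov_main hw n i r hn.le hi.le⟩

lemma seq_tendsto (c : ℝ) (hc : 0 < c) (φ : ℕ → ℕ) (hφ : ∀ i, i ≤ φ i) (δ : ℕ → ℝ)
    (h0 : ∀ i, 0 < δ i) (h1 : ∀ i, δ i ≤ c * (1/4) ^ φ i) : Tendsto δ atTop (𝓝[>] 0) := by
  rw [tendsto_nhdsWithin_iff]
  refine ⟨?_, Eventually.of_forall h0⟩
  have h2 : Tendsto (fun i : ℕ => c * (1/4 : ℝ) ^ i) atTop (𝓝 0) := by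
    have := (tendsto_pow_atTop_nhds_zero_of_lt_one (r := (1/4 : ℝ)) (by norm_num)
      (by norm_num)).const_mul c
    rwa [mul_zero] at this
  refine squeeze_zero (fun i => (h0 i).le) (fun i => (h1 i).trans ?_) h2
  have : ((1:ℝ)/4) ^ φ i ≤ (1/4) ^ i := pow_le_pow_of_le_one (by norm_num) (by norm_num) (hφ i)
  gcongr

/-- small ratios: `N δ` is at most the size of any cover by closed balls of radius `δ / 2` -/
lemma freq_small {w : ℝ} (hw : Good w) (N : ℝ → ℕ)
    (hN : ∀ (δ : ℝ) (s : Finset ℝ), 0 < δ → (∀ z ∈ KK w, ∃ x ∈ s, |z - x| ≤ δ / 2) → N δ ≤ s.card) :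
    ∃ᶠ δ in 𝓝[>] (0 : ℝ), Real.log (N δ) / (-Real.log δ) ≤ 1 / 5 := by
  have ht := seq_tendsto 2 (by norm_num) (fun i => 16 * 16 ^ (2 * i + 2)) (fun i => by
      have : 2 * i + 2 < 16 ^ (2 * i + 2) := Nat.lt_pow_self (by norm_num)
      omega) (fun i => 2 * (1/4) ^ (16 * 16 ^ (2 * i + 2))) (fun i => by positivity)
      (fun i => le_rfl)
  refine ht.frequently (Eventually.of_forall fun i => ?_).frequently
  obtain ⟨s, h1, h2⟩ := cov_bad hw i
  set a := 16 ^ (2 * i + 2) with ha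
  have ha1 : 1 ≤ a := Nat.one_le_pow _ _ (by norm_num)
  have ha2 : (1 : ℝ) ≤ a := by exact_mod_cast ha1
  have h3 := hN (2 * (1/4) ^ (16 * a)) s (by positivity) (fun z hz => by
    obtain ⟨x, hx, h4⟩ := h2 z hz
    exact ⟨x, hx, by linarith⟩)
  have h4 : (N (2 * (1/4) ^ (16 * a)) : ℝ) ≤ 2 ^ (5 * a) := le_trans (by exact_mod_cast h3) h1
  have hl := Real.log_pos (by norm_num : (1:ℝ) < 2)
  have h5 : Real.log (N (2 * (1/4) ^ (16 * a)) : ℝ) ≤ 5 * a * Real.log 2 := by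
    rcases Nat.eq_zero_or_pos (N (2 * (1/4) ^ (16 * a))) with h | h
    · rw [h]; simp only [Nat.cast_zero, Real.log_zero]; positivity
    · have := Real.log_le_log (by exact_mod_cast h) h4
      rw [Real.log_pow] at this
      push_cast at this
      exact this
  have h6 : -Real.log (2 * (1/4) ^ (16 * a)) = (32 * a - 1) * Real.log 2 := by
    rw [Real.log_mul (by norm_num) (by positivity), Real.log_pow,
      show (1/4 : ℝ) = (2 ^ 2)⁻¹ by norm_num, Real.log_inv, Real.log_pow]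
    push_cast; ring
  change Real.log (N (2 * (1/4) ^ (16 * a)) : ℝ) / (-Real.log (2 * (1/4) ^ (16 * a))) ≤ 1 / 5
  rw [h6, div_le_iff₀ (mul_pos (by linarith) hl)]
  nlinarith

/-- large ratios: for each `δ` there is a cover by at most `N δ` closed balls of radius `δ` -/
lemma freq_large {w : ℝ} (hw : Good w) (N : ℝ → ℕ)
    (hN : ∀ δ : ℝ, 0 < δ → ∃ s : Finset ℝ, s.card ≤ N δ ∧ ∀ z ∈ KK w, ∃ x ∈ s, |z - x| ≤ δ) :
    ∃ᶠ δ in 𝓝[>] (0 : ℝ), 1 / 4 ≤ Real.log (N δ) / (-Real.log δ) := by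
  have hw1 := hw.pos
  have hw2 := hw.le
  have ht := seq_tendsto (1/64) (by norm_num) (fun i => 16 ^ (2 * i + 2)) (fun i => by
      have : 2 * i + 2 < 16 ^ (2 * i + 2) := Nat.lt_pow_self (by norm_num)
      omega) (fun i => gg w (16 ^ (2 * i + 2))) (fun i => gg_pos hw1 _)
      (fun i => by have := gg_le hw (16 ^ (2 * i + 2)); linarith)
  have hl := Real.log_pos (by norm_num : (1:ℝ) < 2)
  obtain ⟨I, hI⟩ := exists_nat_ge (-Real.log w / Real.log 2)
  refine ht.frequently (Eventually.frequently ?_)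
  filter_upwards [eventually_ge_atTop I] with i hi
  have hm := mm_good i
  set b := 16 ^ (2 * i + 1) with hb
  have hn : 16 ^ (2 * i + 2) = 16 * b := by rw [hb, show 2 * i + 2 = 2 * i + 1 + 1 by ring, pow_succ]; ring
  rw [hn] at hm ⊢
  have hbI : I ≤ b := by
    have : 2 * i + 1 < 16 ^ (2 * i + 1) := Nat.lt_pow_self (by norm_num)
    omega
  have hbI' : (I : ℝ) ≤ b := by exact_mod_cast hbI
  obtain ⟨s, h1, h2⟩ := hN _ (gg_pos hw1 (16 * b))
  have h3 := (cov_good hw (16 * b) s h2).trans h1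
  have h4 : (2 : ℝ) ^ mm (16 * b) ≤ N (gg w (16 * b)) := by exact_mod_cast h3
  have h5 := Real.log_le_log (by positivity) h4
  rw [Real.log_pow] at h5
  have h6 : -Real.log (gg w (16 * b)) = -Real.log w + (32 * b + mm (16 * b)) * Real.log 2 := by
    unfold gg
    rw [Real.log_div (by positivity) (by positivity), Real.log_mul (by positivity) (by positivity),
      Real.log_pow, Real.log_pow, show (1/4 : ℝ) = (2 ^ 2)⁻¹ by norm_num, Real.log_inv,
      Real.log_pow]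
    push_cast; ring
  have h7 : Real.log w < 0 := Real.log_neg hw1 (by linarith)
  have h8 : (15 * b : ℝ) ≤ mm (16 * b) := by exact_mod_cast hm
  have h9 : -Real.log w ≤ b * Real.log 2 := by
    rw [div_le_iff₀ hl] at hI
    nlinarith
  have h10 : (0 : ℝ) ≤ (32 * b + mm (16 * b)) * Real.log 2 := by positivity
  rw [h6, le_div_iff₀ (by linarith)]
  have h11 : (0 : ℝ) ≤ b := by positivity
  nlinarith

end Pool.Agent.H180Z.Box
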