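import Pool.Agent.H180Z.Box.Cover

set_option autoImplicit false

namespace Pool.Agent.H180Z.Box

open Set Filter Topology Real Metric

theorem frozen_form :
    ∃ (d n : ℕ) (f : Fin n → EuclideanSpace ℝ (Fin d) → EuclideanSpace ℝ (Fin d))
      (K : Set (EuclideanSpace ℝ (Fin d))),
      (∀ i, Differentiable ℝ (f i)) ∧
      (∀ i, ∃ c : NNReal, ContractingWith c (f i)) ∧
      K.Nonempty ∧ IsCompact K ∧ K = ⋃ i, f i '' K ∧
      ¬ ∃ L : ℝ, Filter.Tendsto
        (fun δ : ℝ =>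
          Real.log ((sInf {m : ℕ | ∃ s : Finset (EuclideanSpace ℝ (Fin d)),
              s.card = m ∧ K ⊆ ⋃ x ∈ s, Metric.closedBall x δ} : ℕ) : ℝ)
            / (-Real.log δ))
        (nhdsWithin 0 (Set.Ioi 0)) (nhds L) := by
  classical
  obtain ⟨w, hw⟩ := exists_good
  let e : ℝ ≃ₗᵢ[ℝ] EuclideanSpace ℝ (Fin 1) := (OrthonormalBasis.singleton (Fin 1) ℝ).repr
  refine ⟨1, 3, fun i => e ∘ FF w i ∘ e.symm, e '' KK w, fun i => ?_, fun i => ?_,
    ⟨_, mem_image_of_mem _ (KK_zero w)⟩, (KK_compact hw).image e.continuous, ?_, ?_⟩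
  · have h1 : Differentiable ℝ (FF w i) := fun x => by
      obtain ⟨D, hD, -⟩ := FF_deriv hw i x
      exact hD.differentiableAt
    exact e.toContinuousLinearEquiv.differentiable.comp
      (h1.comp e.symm.toContinuousLinearEquiv.differentiable)
  · refine ⟨1/2, by norm_num, LipschitzWith.of_dist_le_mul fun x y => ?_⟩
    simp only [Function.comp]
    rw [e.dist_map, Real.dist_eq, ← e.symm.dist_map x y, Real.dist_eq]
    have := FF_lip hw i (e.symm x) (e.symm y)
    simpa using this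
  · conv_lhs => rw [KK_eq hw]
    rw [image_iUnion]
    congr 1
    funext i
    rw [image_image, image_image]
    simp
  · rintro ⟨L, hL⟩
    set N : ℝ → ℕ := fun δ => sInf {m : ℕ | ∃ s : Finset (EuclideanSpace ℝ (Fin 1)),
              s.card = m ∧ e '' KK w ⊆ ⋃ x ∈ s, Metric.closedBall x δ} with hN
    have hup : ∀ (δ : ℝ) (s : Finset ℝ), (∀ z ∈ KK w, ∃ x ∈ s, |z - x| ≤ δ) →
        (s.image e).card ∈ {m : ℕ | ∃ s : Finset (EuclideanSpace ℝ (Fin 1)),
              s.card = m ∧ e '' KK w ⊆ ⋃ x ∈ s, Metric.closedBall x δ} := by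
      intro δ s hs
      refine ⟨s.image e, rfl, ?_⟩
      rintro _ ⟨z, hz, rfl⟩
      obtain ⟨x, hx, h1⟩ := hs z hz
      refine mem_iUnion₂.2 ⟨e x, Finset.mem_image_of_mem _ hx, ?_⟩
      rw [mem_closedBall, e.dist_map, Real.dist_eq]; exact h1
    have h1 := freq_small hw N (fun δ s hδ hs => by
      have := hup δ s (fun z hz => by
        obtain ⟨x, hx, h1⟩ := hs z hz
        exact ⟨x, hx, by linarith⟩)
      exact (Nat.sInf_le this).trans Finset.card_image_le)
    have h2 := freq_large hw N (fun δ hδ => by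
      obtain ⟨M, s0, -, hs0⟩ := cov_exists hw hδ
      obtain ⟨s, h3, h4⟩ := Nat.sInf_mem ⟨_, hup δ s0 hs0⟩
      refine ⟨s.image e.symm, Finset.card_image_le.trans h3.le, fun z hz => ?_⟩
      obtain ⟨x, hx, h5⟩ := mem_iUnion₂.1 (h4 (mem_image_of_mem e hz))
      refine ⟨e.symm x, Finset.mem_image_of_mem _ hx, ?_⟩
      rw [mem_closedBall, ← e.symm.dist_map, e.symm_apply_apply, Real.dist_eq] at h5
      exact h5)
    have h3 : L ∈ Iic (1/5 : ℝ) := isClosed_Iic.mem_of_frequently_of_tendsto h1 hL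
    have h4 : L ∈ Ici (1/4 : ℝ) := isClosed_Ici.mem_of_frequently_of_tendsto h2 hL
    have h5 : L ≤ 1/5 := h3
    have h6 : 1/4 ≤ L := h4
    linarith

end Pool.Agent.H180Z.Box
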