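import Mathlib

set_option autoImplicit false

namespace Pool.Agent.H180Z.Box

open Set Filter Topology Real

noncomputable def bump : ContDiffBump (1 : ℝ) := ⟨1/4, 1/2, by norm_num, by norm_num⟩

noncomputable def be : ℝ → ℝ := fun x => bump x

lemma be_nonneg (x : ℝ) : 0 ≤ be x := bump.nonneg
lemma be_le_one (x : ℝ) : be x ≤ 1 := bump.le_one
lemma be_one {x : ℝ} (h1 : 3/4 ≤ x) (h2 : x ≤ 5/4) : be x = 1 := by
  apply bump.one_of_mem_closedBall
  rw [Metric.mem_closedBall, Real.dist_eq, abs_le]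
  constructor <;> simp only [bump] <;> linarith
lemma be_zero {x : ℝ} (h : x ≤ 1/2 ∨ 3/2 ≤ x) : be x = 0 := by
  apply bump.zero_of_le_dist
  rw [Real.dist_eq]
  simp only [bump]
  rcases h with h | h
  · rw [abs_of_nonpos (by linarith)]; linarith
  · rw [abs_of_nonneg (by linarith)]; linarith
lemma be_diff : Differentiable ℝ be :=
  (bump.contDiff (n := 1)).differentiable (by norm_num)

lemma be_deriv_bdd : ∃ C : ℝ, 0 ≤ C ∧ ∀ x, |deriv be x| ≤ C := by
  have h1 : HasCompactSupport be := bump.hasCompactSupport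
  have h2 : Continuous (deriv be) := (bump.contDiff (n := 1)).continuous_deriv (by norm_num)
  obtain ⟨C, hC⟩ := h2.bounded_above_of_compact_support h1.deriv
  exact ⟨max C 0, le_max_right _ _, fun x => (hC x).trans (le_max_left _ _)⟩

def dd (n : ℕ) : ℕ := if Nat.log 16 n % 2 = 1 then 1 else 0

def mm : ℕ → ℕ
  | 0 => 0
  | n + 1 => mm n + dd n

lemma dd_le (n : ℕ) : dd n ≤ 1 := by unfold dd; split_ifs <;> omega

lemma mm_le (n : ℕ) : mm n ≤ n := by
  induction n with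
  | zero => simp [mm]
  | succ n ih => have := dd_le n; simp only [mm]; omega

lemma mm_mono : Monotone mm := monotone_nat_of_le_succ (fun n => by simp [mm])

lemma mm_add (a k c : ℕ) (h : ∀ n, a ≤ n → n < a + k → dd n = c) : mm (a + k) = mm a + k * c := by
  induction k with
  | zero => simp
  | succ k ih =>
    have h1 := ih (fun n h1 h2 => h n h1 (by omega))
    have h2 := h (a + k) (by omega) (by omega)
    rw [← add_assoc]
    simp only [mm]
    rw [h1, h2]; ring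

lemma log_eq {j n : ℕ} (h1 : 16 ^ j ≤ n) (h2 : n < 16 ^ (j + 1)) : Nat.log 16 n = j :=
  Nat.log_eq_of_pow_le_of_lt_pow h1 h2

lemma mm_good (i : ℕ) : 15 * 16 ^ (2 * i + 1) ≤ mm (16 ^ (2 * i + 2)) := by
  have h := mm_add (16 ^ (2 * i + 1)) (15 * 16 ^ (2 * i + 1)) 1 (fun n h1 h2 => by
    have : Nat.log 16 n = 2 * i + 1 := log_eq h1 (by rw [pow_succ]; omega)
    unfold dd; rw [this, if_pos (by omega)])
  have e : 16 ^ (2 * i + 2) = 16 ^ (2 * i + 1) + 15 * 16 ^ (2 * i + 1) := by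
    rw [show 2 * i + 2 = 2 * i + 1 + 1 by ring, pow_succ]; omega
  rw [e, h]; omega

lemma mm_bad (i : ℕ) : mm (16 ^ (2 * i + 1)) ≤ 16 ^ (2 * i) := by
  have h := mm_add (16 ^ (2 * i)) (15 * 16 ^ (2 * i)) 0 (fun n h1 h2 => by
    have : Nat.log 16 n = 2 * i := log_eq h1 (by rw [pow_succ]; omega)
    unfold dd; rw [this, if_neg (by omega)])
  have e : 16 ^ (2 * i + 1) = 16 ^ (2 * i) + 15 * 16 ^ (2 * i) := by
    rw [pow_succ]; omega
  rw [e, h]
  have := mm_le (16 ^ (2 * i))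
  omega

lemma mm_tendsto : Tendsto mm atTop atTop := by
  refine tendsto_atTop_atTop_of_monotone mm_mono (fun b => ⟨16 ^ (2 * b + 2), ?_⟩)
  have h1 := mm_good b
  have h2 : 2 * b + 1 < 16 ^ (2 * b + 1) := Nat.lt_pow_self (by norm_num)
  omega

noncomputable def eta : ℝ := (1/4) ^ 16

lemma eta_pos : 0 < eta := by unfold eta; positivity
lemma eta_le : eta ≤ 1/1000 := by unfold eta; norm_num

noncomputable def gg (w : ℝ) (n : ℕ) : ℝ := w * (1/4) ^ n / 2 ^ (mm n)

noncomputable def vv (w j : ℝ) (n : ℕ) (x : ℝ) : ℝ :=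
  -(1/4 - eta/2) * gg w n * sin ((x - (1/4) ^ n) / gg w n) + j * dd n * (2 * π * gg w (n + 1))

noncomputable def uu (w j : ℝ) (n : ℕ) (x : ℝ) : ℝ := be (x / (1/4) ^ n) * vv w j n x

noncomputable def ff (w j : ℝ) (x : ℝ) : ℝ := x / 4 + ∑' n, uu w j n x

lemma gg_pos {w : ℝ} (hw : 0 < w) (n : ℕ) : 0 < gg w n := by unfold gg; positivity

lemma gg_succ (w : ℝ) (n : ℕ) : gg w (n + 1) * 2 ^ (dd n) = gg w n / 4 := by
  unfold gg
  simp only [mm, pow_add, pow_one]
  field_simp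

lemma gg_succ_le {w : ℝ} (hw : 0 < w) (n : ℕ) : gg w (n + 1) ≤ gg w n / 4 := by
  rw [← gg_succ]
  have := gg_pos hw (n + 1)
  have h2 : (1 : ℝ) ≤ 2 ^ dd n := one_le_pow₀ (by norm_num)
  nlinarith

lemma vv_abs {w j : ℝ} (hw : 0 < w) (hj0 : 0 ≤ j) (hj1 : j ≤ 1) (n : ℕ) (x : ℝ) :
    |vv w j n x| ≤ 2 * gg w n := by
  have hg := gg_pos hw n
  have hg1 := gg_pos hw (n + 1)
  have hg2 := gg_succ_le hw n
  have he := eta_pos
  have he2 := eta_le
  have hd : (dd n : ℝ) ≤ 1 := by exact_mod_cast dd_le n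
  have hd0 : (0 : ℝ) ≤ dd n := by positivity
  have hpi := Real.pi_lt_d2
  have hpi0 := Real.pi_pos
  have hs := abs_sin_le_one ((x - (1/4) ^ n) / gg w n)
  unfold vv
  refine (abs_add_le _ _).trans ?_
  have h1 : |-(1/4 - eta/2) * gg w n * sin ((x - (1/4) ^ n) / gg w n)| ≤ gg w n / 4 := by
    rw [abs_mul, abs_mul, abs_neg, abs_of_pos hg, abs_of_pos (by linarith)]
    have : (1/4 - eta/2) * gg w n ≤ gg w n / 4 := by nlinarith
    have h0 : 0 ≤ (1/4 - eta/2) * gg w n := by apply mul_nonneg <;> linarith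
    nlinarith
  have h2 : |j * dd n * (2 * π * gg w (n + 1))| ≤ 7 / 4 * gg w n := by
    rw [abs_of_nonneg (by positivity)]
    have h3 : j * dd n ≤ 1 := by nlinarith
    have h4 : 2 * π * gg w (n + 1) ≤ 7 / 4 * gg w n := by nlinarith
    have h5 : 0 ≤ 2 * π * gg w (n + 1) := by positivity
    nlinarith
  linarith

lemma vv_hasDeriv {w : ℝ} (hw : 0 < w) (j : ℝ) (n : ℕ) (x : ℝ) :
    HasDerivAt (vv w j n) (-(1/4 - eta/2) * cos ((x - (1/4) ^ n) / gg w n)) x := by
  have hg := gg_pos hw n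
  have h1 : HasDerivAt (fun x : ℝ => (x - (1/4) ^ n) / gg w n) (1 / gg w n) x :=
    ((hasDerivAt_id x).sub_const _).div_const _
  have h2 := (h1.sin.const_mul (-(1/4 - eta/2) * gg w n)).add_const
    (j * dd n * (2 * π * gg w (n + 1)))
  have e : -(1/4 - eta/2) * cos ((x - (1/4) ^ n) / gg w n) =
      -(1/4 - eta/2) * gg w n * (cos ((x - (1/4) ^ n) / gg w n) * (1 / gg w n)) := by
    field_simp
  rw [e]
  exact h2

lemma uu_hasDeriv {w : ℝ} (hw : 0 < w) (j : ℝ) (n : ℕ) (x : ℝ) :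
    HasDerivAt (uu w j n) (deriv be (x / (1/4) ^ n) * (1 / (1/4) ^ n) * vv w j n x +
      be (x / (1/4) ^ n) * (-(1/4 - eta/2) * cos ((x - (1/4) ^ n) / gg w n))) x := by
  have h1 : HasDerivAt (fun x : ℝ => x / (1/4) ^ n) (1 / (1/4) ^ n) x :=
    (hasDerivAt_id x).div_const _
  have h2 : HasDerivAt (fun x : ℝ => be (x / (1/4) ^ n))
      (deriv be (x / (1/4) ^ n) * (1 / (1/4) ^ n)) x :=
    (be_diff _).hasDerivAt.comp x h1
  exact h2.mul (vv_hasDeriv hw j n x)

lemma uu_zero (w j : ℝ) (n : ℕ) {x : ℝ} (h : x ≤ (1/4) ^ n / 2 ∨ 3 / 2 * (1/4) ^ n ≤ x) :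
    uu w j n x = 0 := by
  have hp : (0 : ℝ) < (1/4) ^ n := by positivity
  unfold uu
  rw [be_zero, zero_mul]
  rcases h with h | h
  · left; rw [div_le_iff₀ hp]; linarith
  · right; rw [le_div_iff₀ hp]; linarith

lemma tsum_eq (w j : ℝ) (n : ℕ) {x : ℝ} (h1 : 3 / 8 * (1/4) ^ n < x)
    (h2 : n = 0 ∨ x < 2 * (1/4) ^ n) : ∑' k, uu w j k x = uu w j n x := by
  apply tsum_eq_single
  intro k hk
  apply uu_zero
  rcases lt_or_gt_of_ne hk with h | h
  · left
    rcases h2 with h2 | h2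
    · omega
    · have : ((1:ℝ)/4) ^ n ≤ (1/4) ^ (k + 1) :=
        pow_le_pow_of_le_one (by norm_num) (by norm_num) h
      rw [pow_succ] at this
      linarith
  · right
    have : ((1:ℝ)/4) ^ k ≤ (1/4) ^ (n + 1) :=
      pow_le_pow_of_le_one (by norm_num) (by norm_num) h
    rw [pow_succ] at this
    linarith

lemma tsum_nonpos (w j : ℝ) {x : ℝ} (h : x ≤ 0) : ∑' k, uu w j k x = 0 := by
  have : ∀ k, uu w j k x = 0 := fun k => uu_zero w j k (Or.inl (h.trans (by positivity)))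
  simp [this]

lemma exists_block {x : ℝ} (hx : 0 < x) :
    ∃ n : ℕ, 3 / 8 * (1/4) ^ n < x ∧ (n = 0 ∨ x < 2 * (1/4) ^ n) := by
  by_cases h : x ≤ 3 / 2
  · obtain ⟨n, h1, h2⟩ := exists_nat_pow_near_of_lt_one (x := x / (3/2)) (y := (1/4 : ℝ))
      (by positivity) (by rw [div_le_one (by norm_num)]; exact h) (by norm_num) (by norm_num)
    have hp : (0 : ℝ) < (1/4) ^ n := by positivity
    rw [pow_succ, lt_div_iff₀ (by norm_num)] at h1
    rw [div_le_iff₀ (by norm_num)] at h2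
    exact ⟨n, by linarith, Or.inr (by linarith)⟩
  · exact ⟨0, by simp; linarith, Or.inl rfl⟩

lemma ff_zero (w j : ℝ) : ff w j 0 = 0 := by
  unfold ff; rw [tsum_nonpos w j le_rfl]; simp

lemma ff_deriv_zero {w j : ℝ} (hw : 0 < w) (hj0 : 0 ≤ j) (hj1 : j ≤ 1) :
    HasDerivAt (ff w j) (1/4) 0 := by
  have h0 : HasDerivAt (fun x => ∑' k, uu w j k x) 0 0 := by
    rw [hasDerivAt_iff_isLittleO_nhds_zero]
    simp only [zero_add, smul_zero, sub_zero, tsum_nonpos w j le_rfl]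
    rw [Asymptotics.isLittleO_iff]
    intro c hc
    obtain ⟨M, hM⟩ : ∃ M : ℕ, 6 * w / c < 2 ^ M := by
      obtain ⟨M, hM⟩ := pow_unbounded_of_one_lt (6 * w / c) (by norm_num : (1:ℝ) < 2)
      exact ⟨M, hM⟩
    obtain ⟨N, hN⟩ := eventually_atTop.1 (mm_tendsto.eventually_ge_atTop M)
    have hp : (0 : ℝ) < 3 / 8 * (1/4) ^ N := by positivity
    filter_upwards [Iio_mem_nhds hp] with x hx
    rcases le_or_gt x 0 with h | h
    · rw [tsum_nonpos w j h]; simp only [norm_zero]; positivity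
    · obtain ⟨n, h1, h2⟩ := exists_block h
      rw [tsum_eq w j n h1 h2]
      have hnN : N ≤ n := by
        by_contra hlt
        have : ((1:ℝ)/4) ^ N ≤ (1/4) ^ n :=
          pow_le_pow_of_le_one (by norm_num) (by norm_num) (by omega)
        have hx' : x < 3 / 8 * (1/4) ^ N := hx
        linarith
      have h3 : (2 : ℝ) ^ M ≤ 2 ^ mm n := pow_le_pow_right₀ (by norm_num) (hN n hnN)
      have h4 : |uu w j n x| ≤ 2 * gg w n := by
        unfold uu
        rw [abs_mul, abs_of_nonneg (be_nonneg _)]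
        have := vv_abs hw hj0 hj1 n x
        have h5 := be_le_one (x / (1/4) ^ n)
        have h6 := be_nonneg (x / (1/4) ^ n)
        have h7 := abs_nonneg (vv w j n x)
        nlinarith
      rw [Real.norm_eq_abs, Real.norm_eq_abs, abs_of_pos h]
      refine h4.trans ?_
      unfold gg
      have hq : (0 : ℝ) < (1/4) ^ n := by positivity
      have h8 : 6 * w < c * 2 ^ mm n := by
        rw [div_lt_iff₀ hc] at hM
        nlinarith
      rw [← mul_div_assoc, div_le_iff₀ (by positivity)]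
      have h9 : (0 : ℝ) < 2 ^ mm n := by positivity
      nlinarith
  have := ((hasDerivAt_id (0:ℝ)).div_const 4).add h0
  rw [add_zero] at this
  exact this

lemma ff_deriv {w j C : ℝ} (hw : 0 < w) (hj0 : 0 ≤ j) (hj1 : j ≤ 1) (hC0 : 0 ≤ C)
    (hC : ∀ x, |deriv be x| ≤ C) (hwC : 2 * w * C ≤ eta / 4) (x : ℝ) :
    ∃ D : ℝ, HasDerivAt (ff w j) D x ∧ eta / 4 ≤ D ∧ D ≤ 1 / 2 := by
  have he := eta_pos
  have he2 := eta_le
  rcases lt_trichotomy x 0 with h | h | h
  · refine ⟨1/4, ?_, by linarith, by norm_num⟩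
    have h1 : ff w j =ᶠ[𝓝 x] fun y => y / 4 := by
      filter_upwards [Iio_mem_nhds h] with y hy
      unfold ff; rw [tsum_nonpos w j (le_of_lt hy)]; simp
    exact ((hasDerivAt_id x).div_const 4).congr_of_eventuallyEq h1
  · subst h
    exact ⟨1/4, ff_deriv_zero hw hj0 hj1, by linarith, by norm_num⟩
  · obtain ⟨n, h1, h2⟩ := exists_block h
    have h3 : ff w j =ᶠ[𝓝 x] fun y => y / 4 + uu w j n y := by
      rcases h2 with h2 | h2
      · filter_upwards [Ioi_mem_nhds h1] with y hy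
        unfold ff; rw [tsum_eq w j n hy (Or.inl h2)]
      · filter_upwards [Ioo_mem_nhds h1 h2] with y hy
        unfold ff; rw [tsum_eq w j n hy.1 (Or.inr hy.2)]
    have h4 := (((hasDerivAt_id x).div_const 4).add (uu_hasDeriv hw j n x)).congr_of_eventuallyEq h3
    refine ⟨_, h4, ?_⟩
    have hq : (0 : ℝ) < (1/4) ^ n := by positivity
    have h5 : |deriv be (x / (1/4) ^ n) * (1 / (1/4) ^ n) * vv w j n x| ≤ eta / 4 := by
      rw [abs_mul, abs_mul, abs_of_pos (by positivity : (0:ℝ) < 1 / (1/4) ^ n)]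
      have h6 := vv_abs hw hj0 hj1 n x
      have h7 : gg w n ≤ w * (1/4) ^ n := by
        unfold gg
        apply div_le_self (by positivity) (one_le_pow₀ (by norm_num))
      have h8 : 1 / (1/4) ^ n * |vv w j n x| ≤ 2 * w := by
        rw [one_div, inv_mul_le_iff₀ hq]; linarith
      have h9 := hC (x / (1/4) ^ n)
      calc _ = |deriv be (x / (1/4) ^ n)| * (1 / (1/4) ^ n * |vv w j n x|) := by ring
        _ ≤ C * (2 * w) := mul_le_mul h9 h8 (by positivity) hC0
        _ ≤ eta / 4 := by linarith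
    have h6 : |be (x / (1/4) ^ n) * (-(1/4 - eta/2) * cos ((x - (1/4) ^ n) / gg w n))|
        ≤ 1/4 - eta/2 := by
      rw [abs_mul, abs_mul, abs_neg, abs_of_nonneg (be_nonneg _), abs_of_pos (by linarith)]
      have h7 := abs_cos_le_one ((x - (1/4) ^ n) / gg w n)
      have h8 := be_le_one (x / (1/4) ^ n)
      have h9 := be_nonneg (x / (1/4) ^ n)
      have h10 : (1/4 - eta/2) * |cos ((x - (1/4) ^ n) / gg w n)| ≤ 1/4 - eta/2 := by nlinarith
      have h11 : 0 ≤ (1/4 - eta/2) * |cos ((x - (1/4) ^ n) / gg w n)| := by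
        apply mul_nonneg (by linarith) (abs_nonneg _)
      nlinarith
    rw [abs_le] at h5 h6
    constructor <;> linarith [h5.1, h5.2, h6.1, h6.2]

lemma ff_block (w j : ℝ) (n : ℕ) {x : ℝ} (h1 : 3 / 4 * (1/4) ^ n ≤ x) (h2 : x ≤ 5 / 4 * (1/4) ^ n) :
    ff w j x = x / 4 + vv w j n x := by
  have hq : (0 : ℝ) < (1/4) ^ n := by positivity
  unfold ff
  rw [tsum_eq w j n (by linarith) (Or.inr (by linarith))]
  unfold uu
  rw [be_one, one_mul]
  · rw [le_div_iff₀ hq]; exact h1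
  · rw [div_le_iff₀ hq]; exact h2

end Pool.Agent.H180Z.Box
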